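import Mathlib

/-!
# PX-LR1, part a: power series and a recursion
-/

set_option autoImplicit false

open Finset ComplexConjugate

namespace Pool.Agent.Q95.PX

/-! ### the Euler operator on power series -/

/-- the operator `X d/dX` -/
noncomputable def th (f : PowerSeries ℂ) : PowerSeries ℂ :=
  PowerSeries.mk fun k => (k : ℂ) * PowerSeries.coeff k f

theorem coeff_th (f : PowerSeries ℂ) (k : ℕ) :
    PowerSeries.coeff k (th f) = (k : ℂ) * PowerSeries.coeff k f := by
  rw [th, PowerSeries.coeff_mk]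

theorem th_add (f g : PowerSeries ℂ) : th (f + g) = th f + th g := by
  ext k
  rw [map_add, coeff_th, coeff_th, coeff_th, map_add]
  ring

theorem th_mul (f g : PowerSeries ℂ) : th (f * g) = th f * g + f * th g := by
  ext k
  rw [map_add, coeff_th, PowerSeries.coeff_mul, PowerSeries.coeff_mul, PowerSeries.coeff_mul,
    mul_sum, ← sum_add_distrib]
  apply sum_congr rfl
  rintro ⟨i, j⟩ hij
  rw [HasAntidiagonal.mem_antidiagonal] at hij
  simp only at hij ⊢
  rw [coeff_th, coeff_th, ← hij]
  push_cast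
  ring

theorem th_one : th 1 = 0 := by
  ext k
  rw [coeff_th, PowerSeries.coeff_one, map_zero]
  split_ifs with h
  · rw [h]; simp
  · ring

theorem th_prod {ι : Type} (s : Finset ι) (f b : ι → PowerSeries ℂ)
    (h : ∀ i ∈ s, th (f i) = b i * f i) : th (∏ i ∈ s, f i) = (∑ i ∈ s, b i) * ∏ i ∈ s, f i := by
  classical
  induction s using Finset.induction_on with
  | empty => rw [prod_empty, sum_empty, th_one, zero_mul]
  | insert a s ha ih =>
    rw [prod_insert ha, sum_insert ha, th_mul, h a (mem_insert_self a s),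
      ih (fun i hi => h i (mem_insert_of_mem hi))]
    ring

/-! ### geometric series -/

/-- the geometric series -/
noncomputable def Ge (γ : ℂ) : PowerSeries ℂ := PowerSeries.mk fun k => γ ^ k

theorem coeff_Ge (γ : ℂ) (k : ℕ) : PowerSeries.coeff k (Ge γ) = γ ^ k := by
  rw [Ge, PowerSeries.coeff_mk]

theorem Ge_mul (γ : ℂ) : Ge γ * (1 - PowerSeries.C γ * PowerSeries.X) = 1 := by
  ext k
  rw [mul_sub, mul_one, map_sub, coeff_Ge]
  rcases k with _ | k
  · simp [PowerSeries.coeff_zero_eq_constantCoeff]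
  · rw [mul_comm (PowerSeries.C γ), ← mul_assoc, mul_comm _ (PowerSeries.C γ),
      PowerSeries.coeff_C_mul, PowerSeries.coeff_succ_mul_X, coeff_Ge, PowerSeries.coeff_one]
    rw [if_neg (Nat.succ_ne_zero k), pow_succ]
    ring

theorem th_Ge (γ : ℂ) : th (Ge γ) = (Ge γ - 1) * Ge γ := by
  ext k
  rw [sub_mul, one_mul, map_sub, coeff_th, coeff_Ge, PowerSeries.coeff_mul]
  have h : ∀ p ∈ antidiagonal k, PowerSeries.coeff p.1 (Ge γ) * PowerSeries.coeff p.2 (Ge γ) =
      γ ^ k := by
    rintro ⟨i, j⟩ hij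
    rw [HasAntidiagonal.mem_antidiagonal] at hij
    simp only at hij ⊢
    rw [coeff_Ge, coeff_Ge, ← pow_add, hij]
  rw [sum_congr rfl h, sum_const, Nat.card_antidiagonal, nsmul_eq_mul]
  push_cast
  ring

theorem th_lin (γ : ℂ) : th (1 - PowerSeries.C γ * PowerSeries.X) =
    -(Ge γ - 1) * (1 - PowerSeries.C γ * PowerSeries.X) := by
  have h1 : -(Ge γ - 1) * (1 - PowerSeries.C γ * PowerSeries.X) =
      - (PowerSeries.C γ * PowerSeries.X) := by
    have h2 : -(Ge γ - 1) * (1 - PowerSeries.C γ * PowerSeries.X) =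
        (1 - PowerSeries.C γ * PowerSeries.X) -
          Ge γ * (1 - PowerSeries.C γ * PowerSeries.X) := by ring
    rw [h2, Ge_mul]
    ring
  rw [h1]
  ext k
  rw [coeff_th, map_sub, map_neg, PowerSeries.coeff_C_mul, PowerSeries.coeff_X,
    PowerSeries.coeff_one]
  by_cases h0 : k = 0
  · subst h0; simp
  · by_cases h3 : k = 1
    · subst h3; simp
    · simp [h0, h3]

/-! ### evaluation -/

/-- absolute convergence at `w` with sum `s` -/
def Ev (w : ℂ) (f : PowerSeries ℂ) (s : ℂ) : Prop :=
  Summable (fun k => ‖PowerSeries.coeff k f * w ^ k‖) ∧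
    HasSum (fun k => PowerSeries.coeff k f * w ^ k) s

theorem Ev_mul {w s t : ℂ} {f g : PowerSeries ℂ} (hf : Ev w f s) (hg : Ev w g t) :
    Ev w (f * g) (s * t) := by
  have hco : ∀ k, PowerSeries.coeff k (f * g) * w ^ k = ∑ p ∈ antidiagonal k,
      (PowerSeries.coeff p.1 f * w ^ p.1) * (PowerSeries.coeff p.2 g * w ^ p.2) := by
    intro k
    rw [PowerSeries.coeff_mul, sum_mul]
    apply sum_congr rfl
    rintro ⟨i, j⟩ hij
    rw [HasAntidiagonal.mem_antidiagonal] at hij
    simp only at hij ⊢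
    rw [← hij, pow_add]
    ring
  have h1 := summable_norm_sum_mul_antidiagonal_of_summable_norm hf.1 hg.1
  have h2 := tsum_mul_tsum_eq_tsum_sum_antidiagonal_of_summable_norm hf.1 hg.1
  constructor
  · simp only [hco]
    exact h1
  · simp only [hco]
    rw [hf.2.tsum_eq, hg.2.tsum_eq] at h2
    rw [h2]
    exact h1.of_norm.hasSum

theorem Ev_fin {w : ℂ} (f : PowerSeries ℂ) (n : ℕ) (hf : ∀ k, n ≤ k → PowerSeries.coeff k f = 0) :
    Ev w f (∑ k ∈ range n, PowerSeries.coeff k f * w ^ k) := by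
  constructor
  · apply summable_of_ne_finset_zero (s := range n)
    intro k hk
    rw [mem_range, not_lt] at hk
    rw [hf k hk]
    simp
  · apply hasSum_sum_of_ne_finset_zero
    intro k hk
    rw [mem_range, not_lt] at hk
    rw [hf k hk]
    simp

theorem Ev_one (w : ℂ) : Ev w 1 1 := by
  have h := Ev_fin (w := w) 1 1 (fun k hk => by
    rw [PowerSeries.coeff_one, if_neg (by omega)])
  rw [sum_range_one] at h
  simpa using h

theorem Ev_lin (w : ℂ) : Ev w (1 - PowerSeries.X) (1 - w) := by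
  have h := Ev_fin (w := w) (1 - PowerSeries.X) 2 (fun k hk => by
    rw [map_sub, PowerSeries.coeff_one, PowerSeries.coeff_X, if_neg (by omega),
      if_neg (by omega), sub_zero])
  rw [sum_range_succ, sum_range_one] at h
  have e : PowerSeries.coeff 0 (1 - PowerSeries.X : PowerSeries ℂ) * w ^ 0 +
      PowerSeries.coeff 1 (1 - PowerSeries.X : PowerSeries ℂ) * w ^ 1 = 1 - w := by
    rw [map_sub, map_sub, PowerSeries.coeff_one, PowerSeries.coeff_one, PowerSeries.coeff_X,
      PowerSeries.coeff_X]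
    simp
    ring
  rw [e] at h
  exact h

theorem Ev_Ge {w γ : ℂ} (h : ‖γ * w‖ < 1) : Ev w (Ge γ) (1 - γ * w)⁻¹ := by
  have hco : ∀ k, PowerSeries.coeff k (Ge γ) * w ^ k = (γ * w) ^ k := by
    intro k
    rw [coeff_Ge, mul_pow]
  constructor
  · simp only [hco]
    simp only [norm_pow]
    exact summable_geometric_of_lt_one (norm_nonneg _) h
  · simp only [hco]
    exact hasSum_geometric_of_norm_lt_one h

theorem Ev_prod {ι : Type} {w : ℂ} (s : Finset ι) (f : ι → PowerSeries ℂ) (c : ι → ℂ)
    (h : ∀ i ∈ s, Ev w (f i) (c i)) : Ev w (∏ i ∈ s, f i) (∏ i ∈ s, c i) := by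
  classical
  induction s using Finset.induction_on with
  | empty => rw [prod_empty, prod_empty]; exact Ev_one w
  | insert a s ha ih =>
    rw [prod_insert ha, prod_insert ha]
    exact Ev_mul (h a (mem_insert_self a s)) (ih (fun i hi => h i (mem_insert_of_mem hi)))

/-! ### the recursion -/

theorem rec_mid {e B : ℕ → ℝ} {x : ℝ} {m : ℕ} (he0 : e 0 = 1) (hB0 : B 0 = 0)
    (hrec : ∀ k : ℕ, (k : ℝ) * e k = ∑ p ∈ antidiagonal k, B p.1 * e p.2)
    (hB : ∀ i, 1 ≤ i → i ≤ m → |B i| ≤ 3 * |x| ^ i) :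
    ∀ k, k ≤ m → |e k| ≤ (3 * |x|) ^ k := by
  intro k
  induction k using Nat.strong_induction_on with
  | _ k ih =>
    intro hk
    rcases Nat.eq_zero_or_pos k with h0 | h0
    · rw [h0, he0, pow_zero, abs_one]
    · have hkpos : (0 : ℝ) < k := by exact_mod_cast h0
      have h1 : (k : ℝ) * |e k| ≤ k * (3 * |x|) ^ k := by
        calc (k : ℝ) * |e k| = |(k : ℝ) * e k| := by rw [abs_mul, Nat.abs_cast]
          _ = |∑ p ∈ antidiagonal k, B p.1 * e p.2| := by rw [hrec]
          _ ≤ ∑ p ∈ antidiagonal k, |B p.1 * e p.2| := abs_sum_le_sum_abs _ _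
          _ ≤ ∑ p ∈ antidiagonal k, (if p.1 = 0 then 0 else (3 * |x|) ^ k) := by
              apply sum_le_sum
              rintro ⟨i, j⟩ hij
              rw [HasAntidiagonal.mem_antidiagonal] at hij
              simp only at hij ⊢
              split_ifs with hi
              · rw [hi, hB0]; simp
              · have hi1 : 1 ≤ i := Nat.one_le_iff_ne_zero.mpr hi
                rw [abs_mul]
                have e1 := hB i hi1 (by omega)
                have e2 := ih j (by omega) (by omega)
                calc |B i| * |e j| ≤ (3 * |x| ^ i) * (3 * |x|) ^ j :=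
                      mul_le_mul e1 e2 (abs_nonneg _) (by positivity)
                  _ ≤ (3 * |x|) ^ i * (3 * |x|) ^ j := by
                      apply mul_le_mul_of_nonneg_right _ (by positivity)
                      rw [mul_pow]
                      apply mul_le_mul_of_nonneg_right _ (by positivity)
                      calc (3 : ℝ) = 3 ^ 1 := (pow_one _).symm
                        _ ≤ 3 ^ i := pow_le_pow_right₀ (by norm_num) hi1
                  _ = (3 * |x|) ^ k := by rw [← pow_add, hij]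
          _ = k * (3 * |x|) ^ k := by
              rw [Nat.sum_antidiagonal_eq_sum_range_succ_mk, sum_range_succ']
              simp
      exact le_of_mul_le_mul_left h1 hkpos

theorem rec_all {e B : ℕ → ℝ} {x r M : ℝ} {D : ℕ} (he0 : e 0 = 1) (hB0 : B 0 = 0)
    (hrec : ∀ k : ℕ, (k : ℝ) * e k = ∑ p ∈ antidiagonal k, B p.1 * e p.2)
    (hB : ∀ i, 1 ≤ i → i < D → |B i| ≤ 3 * |x| ^ i) (hM : ∀ i, |B i| ≤ M)
    (hx : |x| ≤ 1 / 100) (hr0 : 0 < r) (hr1 : r < 1) (hsmall : M * (r ^ D / (1 - r)) ≤ 1 / 2) :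
    ∀ k, |e k| ≤ (r⁻¹) ^ k := by
  have hM0 : 0 ≤ M := (abs_nonneg _).trans (hM 0)
  have hS : ∀ k : ℕ, ∑ i ∈ Ico 1 (k + 1), |B i| * r ^ i ≤ 1 := by
    intro k
    have h1 : ∀ i ∈ Ico 1 (k + 1), |B i| * r ^ i ≤
        3 * (1 / 100 : ℝ) ^ i + M * (if D ≤ i then r ^ i else 0) := by
      intro i hi
      rw [mem_Ico] at hi
      have hri : 0 ≤ r ^ i := by positivity
      have hri1 : r ^ i ≤ 1 := pow_le_one₀ hr0.le hr1.le
      split_ifs with hD
      · have e1 := mul_le_mul_of_nonneg_right (hM i) hri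
        have e2 : (0 : ℝ) ≤ 3 * (1 / 100 : ℝ) ^ i := by positivity
        linarith
      · have e1 := hB i hi.1 (not_le.mp hD)
        have e2 : |x| ^ i ≤ (1 / 100 : ℝ) ^ i := pow_le_pow_left₀ (abs_nonneg _) hx i
        have e3 : |B i| * r ^ i ≤ |B i| * 1 := mul_le_mul_of_nonneg_left hri1 (abs_nonneg _)
        linarith
    refine (sum_le_sum h1).trans ?_
    rw [sum_add_distrib, ← mul_sum, ← mul_sum]
    have h2 : ∑ i ∈ Ico 1 (k + 1), (1 / 100 : ℝ) ^ i ≤ (1 / 100) ^ 1 / (1 - 1 / 100) :=
      geom_sum_Ico_le_of_lt_one (by norm_num) (by norm_num)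
    have h3 : ∑ i ∈ Ico 1 (k + 1), (if D ≤ i then r ^ i else 0) ≤ r ^ D / (1 - r) := by
      rw [← sum_filter]
      have hsub : (Ico 1 (k + 1)).filter (fun i => D ≤ i) ⊆ Ico D (k + 1) := by
        intro i hi
        rw [mem_filter, mem_Ico] at hi
        rw [mem_Ico]
        omega
      refine (sum_le_sum_of_subset_of_nonneg hsub fun i _ _ => by positivity).trans ?_
      exact geom_sum_Ico_le_of_lt_one hr0.le hr1
    have h4 := mul_le_mul_of_nonneg_left h3 hM0
    norm_num at h2
    linarith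
  intro k
  induction k using Nat.strong_induction_on with
  | _ k ih =>
    rcases Nat.eq_zero_or_pos k with h0 | h0
    · rw [h0, he0, pow_zero, abs_one]
    · have hkpos : (0 : ℝ) < k := by exact_mod_cast h0
      have hk1 : (1 : ℝ) ≤ k := by exact_mod_cast h0
      have hrk : 0 < (r⁻¹) ^ k := by positivity
      have h1 : (k : ℝ) * |e k| ≤ k * (r⁻¹) ^ k := by
        calc (k : ℝ) * |e k| = |(k : ℝ) * e k| := by rw [abs_mul, Nat.abs_cast]
          _ = |∑ p ∈ antidiagonal k, B p.1 * e p.2| := by rw [hrec]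
          _ ≤ ∑ p ∈ antidiagonal k, |B p.1 * e p.2| := abs_sum_le_sum_abs _ _
          _ ≤ ∑ p ∈ antidiagonal k,
              (if p.1 = 0 then 0 else (|B p.1| * r ^ p.1) * (r⁻¹) ^ k) := by
              apply sum_le_sum
              rintro ⟨i, j⟩ hij
              rw [HasAntidiagonal.mem_antidiagonal] at hij
              simp only at hij ⊢
              split_ifs with hi
              · rw [hi, hB0]; simp
              · rw [abs_mul]
                have e2 := ih j (by omega)
                have e3 : r ^ i * (r⁻¹) ^ k = (r⁻¹) ^ j := by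
                  rw [← hij, pow_add, ← mul_assoc, ← mul_pow, mul_inv_cancel₀ hr0.ne', one_pow,
                    one_mul]
                rw [mul_assoc, e3]
                exact mul_le_mul_of_nonneg_left e2 (abs_nonneg _)
          _ = (∑ i ∈ Ico 1 (k + 1), |B i| * r ^ i) * (r⁻¹) ^ k := by
              rw [Nat.sum_antidiagonal_eq_sum_range_succ_mk, sum_range_succ', sum_mul,
                sum_Ico_eq_sum_range]
              simp [add_comm]
          _ ≤ 1 * (r⁻¹) ^ k := mul_le_mul_of_nonneg_right (hS k) hrk.le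
          _ ≤ k * (r⁻¹) ^ k := mul_le_mul_of_nonneg_right hk1 hrk.le
      exact le_of_mul_le_mul_left h1 hkpos

end Pool.Agent.Q95.PX
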