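import Pool.Agent.Q284.PX.Stm
import Pool.Agent.Q95.PX.LR1a

/-!
# PX-LR1: Rankin-Selberg local factors
-/

set_option autoImplicit false

open Finset ComplexConjugate

namespace Pool.Agent.Q95.PX

open Pool.Agent.Q284.PX

theorem th_dvd (n : ℕ) {f : PowerSeries ℂ} (h : PowerSeries.X ^ n ∣ f) :
    PowerSeries.X ^ n ∣ th f := by
  rw [PowerSeries.X_pow_dvd_iff] at h ⊢
  intro m hm
  rw [coeff_th, h m hm, mul_zero]

/-- the first power sums of the roots -/
theorem pow_sum {d : ℕ} (hd : 4 ≤ d) {x : ℝ} (β : Fin d → ℂ)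
    (hβ : (1 - Polynomial.C (x : ℂ) * Polynomial.X -
      Polynomial.C ((-1) ^ d * conj (x : ℂ)) * Polynomial.X ^ (d - 1) +
      Polynomial.C ((-1) ^ d) * Polynomial.X ^ d : Polynomial ℂ) =
      ∏ j, (1 - Polynomial.C (β j) * Polynomial.X)) :
    ∀ k, 1 ≤ k → k < d - 1 → ∑ j, β j ^ k = (x : ℂ) ^ k := by
  have h1 := congrArg (Polynomial.coeToPowerSeries.ringHom (R := ℂ)) hβ
  simp only [map_sub, map_add, map_mul, map_prod, map_one, map_pow, map_neg,
    Polynomial.coeToPowerSeries.ringHom_apply, Polynomial.coe_C, Polynomial.coe_X] at h1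
  set Pf : PowerSeries ℂ := ∏ j, (1 - PowerSeries.C (β j) * PowerSeries.X) with hPf
  set G : PowerSeries ℂ := Ge (x : ℂ) with hG
  set Q : PowerSeries ℂ := 1 - PowerSeries.C (x : ℂ) * PowerSeries.X with hQ
  set T : PowerSeries ℂ := -PowerSeries.C ((-1) ^ d * conj (x : ℂ)) +
    PowerSeries.C ((-1) ^ d) * PowerSeries.X with hT
  have hXd : (PowerSeries.X : PowerSeries ℂ) ^ d = PowerSeries.X ^ (d - 1) * PowerSeries.X := by
    rw [← pow_succ]
    congr 1
    omega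
  have hP : Pf = Q + PowerSeries.X ^ (d - 1) * T := by
    rw [← h1, hXd, hT]
    simp only [map_mul, map_pow, map_neg, map_one]
    ring
  have hth : th Pf = (∑ j, -(Ge (β j) - 1)) * Pf :=
    th_prod univ _ _ (fun j _ => th_lin (β j))
  have hth2 : th Pf = -(G - 1) * Q + th (PowerSeries.X ^ (d - 1) * T) := by
    rw [hP, th_add, hQ, th_lin]
  have hkey : (∑ j, (Ge (β j) - 1) - (G - 1)) * Pf =
      -(th (PowerSeries.X ^ (d - 1) * T)) - PowerSeries.X ^ (d - 1) * ((G - 1) * T) := by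
    have e1 : (∑ j, -(Ge (β j) - 1)) = -∑ j, (Ge (β j) - 1) := by
      rw [sum_neg_distrib]
    rw [e1] at hth
    have e2 : (∑ j, (Ge (β j) - 1) - (G - 1)) * Pf = -th Pf - (G - 1) * Pf := by
      rw [hth]; ring
    rw [e2, hth2, hP]
    ring
  have hdvd : PowerSeries.X ^ (d - 1) ∣ (∑ j, (Ge (β j) - 1) - (G - 1)) * Pf := by
    rw [hkey]
    apply dvd_sub
    · rw [dvd_neg]
      exact th_dvd _ (dvd_mul_right _ _)
    · exact dvd_mul_right _ _
  have hunit : IsUnit Pf := by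
    rw [PowerSeries.isUnit_iff_constantCoeff, hPf, map_prod]
    simp
  rw [hunit.dvd_mul_right, PowerSeries.X_pow_dvd_iff] at hdvd
  intro k hk1 hk
  have h2 := hdvd k hk
  rw [map_sub, map_sum, map_sub, coeff_Ge] at h2
  have e3 : (PowerSeries.coeff k (1 : PowerSeries ℂ)) = 0 := by
    rw [PowerSeries.coeff_one, if_neg (by omega)]
  rw [e3, sub_zero, sub_eq_zero] at h2
  rw [← h2]
  apply sum_congr rfl
  intro j _
  rw [map_sub, coeff_Ge, e3, sub_zero]

/-- the number whose inverse is `3^(1/64)` -/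
noncomputable def rr : ℝ := (3 : ℝ) ^ (-(1 / 64 : ℝ))

theorem rr_pos : 0 < rr := Real.rpow_pos_of_pos (by norm_num) _

theorem rr_lt : rr < 1 := Real.rpow_lt_one_of_one_lt_of_neg (by norm_num) (by norm_num)

theorem rr_inv (k : ℕ) : (rr⁻¹) ^ k = (3 : ℝ) ^ ((k : ℝ) / 64) := by
  unfold rr
  rw [← Real.rpow_neg (by norm_num), neg_neg, ← Real.rpow_natCast, ← Real.rpow_mul (by norm_num)]
  congr 1
  ring

theorem per_z (h2 : Pool.Agent.Q284.PS.S_LOC2) {d : ℕ} (hd : 9 ≤ d)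
    (hsm : ((d : ℝ) + 1) ^ 2 * (rr ^ (d - 1) / (1 - rr)) ≤ 1 / 2) (z : ℝ) (hz : |z| ≤ 1 / 100) :
    ∃ e : ℕ → ℝ, e 0 = 1 ∧ e 1 = z ∧ (∀ k, 2 ≤ k → k < d - 1 → |e k| ≤ 10 * z ^ 2) ∧
      (∀ k : ℕ, |e k| ≤ 2 * (3 : ℝ) ^ ((k : ℝ) / 64)) ∧
      ∃ α : Fin (d + 1) → ℂ, (∀ j, ‖α j‖ = 1) ∧ ∏ j, α j = 1 ∧
        (∀ w : ℂ, ∏ j, (1 - conj (α j) * w) = ∏ j, (1 - α j * w)) ∧
        ∀ w : ℂ, ‖w‖ ≤ 1 / 2 →
          HasSum (fun k : ℕ => (e k : ℂ) * w ^ k)
            ((1 - w) * ∏ i, ∏ j, (1 - α i * conj (α j) * w)⁻¹) := by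
  obtain ⟨x, hx2, hx1, hxz⟩ : ∃ x : ℝ, 2 * x + x ^ 2 = z ∧ |x| ≤ 1 / 100 ∧ x ^ 2 ≤ z ^ 2 := by
    have hz' := abs_le.mp hz
    have h0 : 0 ≤ 1 + z := by linarith
    have hs : √(1 + z) ^ 2 = 1 + z := Real.sq_sqrt h0
    have hs1 : 99 / 100 ≤ √(1 + z) := by
      apply Real.le_sqrt_of_sq_le
      norm_num
      linarith
    have hs2 : √(1 + z) ≤ 101 / 100 := by
      rw [Real.sqrt_le_left (by norm_num)]
      norm_num
      linarith
    refine ⟨√(1 + z) - 1, by nlinarith, ?_, ?_⟩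
    · rw [abs_le]
      constructor <;> linarith
    · have e1 : z = (√(1 + z) - 1) * (√(1 + z) + 1) := by nlinarith
      have e2 : z ^ 2 = (√(1 + z) - 1) ^ 2 * (√(1 + z) + 1) ^ 2 := by
        rw [← mul_pow, ← e1]
      rw [e2]
      have e3 : 1 ≤ (√(1 + z) + 1) ^ 2 := by nlinarith
      nlinarith [sq_nonneg (√(1 + z) - 1)]
  obtain ⟨β, hβ1, hβ, hβp⟩ := h2 d (x : ℂ) (by omega) (by
    rw [Complex.norm_real, Real.norm_eq_abs]
    linarith)
  set α : Fin (d + 1) → ℂ := Fin.cons 1 β with hα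
  have hα0 : α 0 = 1 := rfl
  have hαs : ∀ j : Fin d, α j.succ = β j := fun j => rfl
  have hα1 : ∀ j, ‖α j‖ = 1 := by
    intro j
    refine Fin.cases ?_ (fun i => ?_) j
    · rw [hα0, norm_one]
    · rw [hαs]; exact hβ1 i
  have hαp : ∏ j, α j = 1 := by
    rw [Fin.prod_univ_succ, hα0, one_mul]
    simp only [hαs]
    exact hβp
  have hpol : ∀ w : ℂ, ∏ j, (1 - α j * w) = (1 - w) *
      (1 - x * w - (-1) ^ d * x * w ^ (d - 1) + (-1) ^ d * w ^ d) := by
    intro w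
    have e1 := congrArg (Polynomial.eval w) hβ
    rw [Polynomial.eval_prod] at e1
    simp only [Polynomial.eval_sub, Polynomial.eval_add, Polynomial.eval_mul, Polynomial.eval_C,
      Polynomial.eval_X, Polynomial.eval_pow, Polynomial.eval_one, Complex.conj_ofReal] at e1
    rw [Fin.prod_univ_succ, hα0, one_mul]
    simp only [hαs]
    rw [← e1]
  have hconj : ∀ w : ℂ, ∏ j, (1 - conj (α j) * w) = ∏ j, (1 - α j * w) := by
    intro w
    have e1 : ∏ j, (1 - conj (α j) * w) = conj (∏ j, (1 - α j * conj w)) := by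
      rw [map_prod]
      apply prod_congr rfl
      intro j _
      rw [map_sub, map_mul, map_one, Complex.conj_conj]
    rw [e1, hpol, hpol]
    simp only [map_mul, map_sub, map_add, map_one, map_pow, map_neg, Complex.conj_conj,
      Complex.conj_ofReal]
  -- the power series
  set E : PowerSeries ℂ := (1 - PowerSeries.X) * ∏ i, ∏ j, Ge (α i * conj (α j)) with hE
  set Bs : PowerSeries ℂ := -(Ge 1 - 1) + ∑ i, ∑ j, (Ge (α i * conj (α j)) - 1) with hBs
  have hthE : th E = Bs * E := by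
    have e1 : th (1 - PowerSeries.X : PowerSeries ℂ) = -(Ge 1 - 1) * (1 - PowerSeries.X) := by
      have := th_lin 1
      rw [map_one, one_mul] at this
      exact this
    have e2 : th (∏ i, ∏ j, Ge (α i * conj (α j))) =
        (∑ i, ∑ j, (Ge (α i * conj (α j)) - 1)) * ∏ i, ∏ j, Ge (α i * conj (α j)) := by
      apply th_prod
      intro i _
      apply th_prod
      intro j _
      exact th_Ge _
    rw [hE, th_mul, e1, e2, hBs]
    ring
  set Br : ℕ → ℝ := fun k => if k = 0 then 0 else ‖∑ i, α i ^ k‖ ^ 2 - 1 with hBr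
  have hBr0 : Br 0 = 0 := by rw [hBr]; simp
  have hcB : ∀ k, PowerSeries.coeff k Bs = (Br k : ℂ) := by
    intro k
    rw [hBs, map_add, map_neg, map_sub, coeff_Ge, map_sum]
    by_cases hk : k = 0
    · subst hk
      rw [hBr0]
      simp only [pow_zero, PowerSeries.coeff_one, if_true, sub_self, neg_zero, zero_add,
        Complex.ofReal_zero]
      apply sum_eq_zero
      intro i _
      rw [map_sum]
      apply sum_eq_zero
      intro j _
      rw [map_sub, coeff_Ge, PowerSeries.coeff_one]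
      simp
    · have e1 : PowerSeries.coeff k (1 : PowerSeries ℂ) = 0 := by
        rw [PowerSeries.coeff_one, if_neg hk]
      have e2 : Br k = ‖∑ i, α i ^ k‖ ^ 2 - 1 := by
        rw [hBr]
        simp only [if_neg hk]
      rw [e1, e2, one_pow, sub_zero]
      have e3 : ∑ i, PowerSeries.coeff k (∑ j, (Ge (α i * conj (α j)) - 1)) =
          (∑ i, α i ^ k) * conj (∑ i, α i ^ k) := by
        rw [map_sum, sum_mul_sum]
        apply sum_congr rfl
        intro i _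
        rw [map_sum]
        apply sum_congr rfl
        intro j _
        rw [map_sub, coeff_Ge, e1, sub_zero, mul_pow, map_pow]
      rw [e3, Complex.mul_conj, Complex.normSq_eq_norm_sq]
      push_cast
      ring
  have hrecC : ∀ k : ℕ, (k : ℂ) * PowerSeries.coeff k E =
      ∑ p ∈ antidiagonal k, (Br p.1 : ℂ) * PowerSeries.coeff p.2 E := by
    intro k
    rw [← coeff_th, hthE, PowerSeries.coeff_mul]
    apply sum_congr rfl
    intro p _
    rw [hcB]
  have hE0 : PowerSeries.coeff 0 E = 1 := by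
    rw [PowerSeries.coeff_zero_eq_constantCoeff_apply, hE, map_mul, map_prod]
    have e1 : ∀ i, PowerSeries.constantCoeff (∏ j, Ge (α i * conj (α j))) = 1 := by
      intro i
      rw [map_prod]
      apply prod_eq_one
      intro j _
      rw [← PowerSeries.coeff_zero_eq_constantCoeff_apply, coeff_Ge, pow_zero]
    rw [prod_congr rfl (fun i _ => e1 i)]
    simp
  set e : ℕ → ℝ := fun k => (PowerSeries.coeff k E).re with he
  have him : ∀ k, (PowerSeries.coeff k E).im = 0 := by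
    intro k
    induction k using Nat.strong_induction_on with
    | _ k ih =>
      rcases Nat.eq_zero_or_pos k with h0 | h0
      · rw [h0, hE0, Complex.one_im]
      · have e1 := congrArg Complex.im (hrecC k)
        have hk : (k : ℝ) ≠ 0 := by
          have : k ≠ 0 := by omega
          exact_mod_cast this
        rw [Complex.im_sum] at e1
        have e2 : ∑ p ∈ antidiagonal k, ((Br p.1 : ℂ) * PowerSeries.coeff p.2 E).im = 0 := by
          apply sum_eq_zero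
          rintro ⟨i, j⟩ hij
          rw [HasAntidiagonal.mem_antidiagonal] at hij
          simp only at hij ⊢
          rw [Complex.im_ofReal_mul]
          rcases Nat.eq_zero_or_pos i with hi | hi
          · rw [hi, hBr0, zero_mul]
          · rw [ih j (by omega), mul_zero]
        rw [e2] at e1
        have e3 : ((k : ℂ) * PowerSeries.coeff k E).im = (k : ℝ) * (PowerSeries.coeff k E).im := by
          have := Complex.im_ofReal_mul (k : ℝ) (PowerSeries.coeff k E)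
          rwa [Complex.ofReal_natCast] at this
        rw [e3] at e1
        exact (mul_eq_zero.mp e1).resolve_left hk
  have hee : ∀ k, PowerSeries.coeff k E = (e k : ℂ) := by
    intro k
    apply Complex.ext
    · rw [Complex.ofReal_re]
    · rw [Complex.ofReal_im, him]
  have hrec : ∀ k : ℕ, (k : ℝ) * e k = ∑ p ∈ antidiagonal k, Br p.1 * e p.2 := by
    intro k
    have e1 := hrecC k
    rw [hee] at e1
    have e2 : ∀ p ∈ antidiagonal k, (Br p.1 : ℂ) * PowerSeries.coeff p.2 E =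
        ((Br p.1 * e p.2 : ℝ) : ℂ) := by
      intro p _
      rw [hee]
      push_cast
      ring
    rw [sum_congr rfl e2, ← Complex.ofReal_sum] at e1
    exact_mod_cast e1
  have he0 : e 0 = 1 := by
    rw [he]
    simp only
    rw [hE0, Complex.one_re]
  -- the power sums
  have hps : ∀ k, 1 ≤ k → k < d - 1 → Br k = 2 * x ^ k + (x ^ k) ^ 2 := by
    intro k hk1 hk2
    have e1 : ∑ i, α i ^ k = ((1 + x ^ k : ℝ) : ℂ) := by
      rw [Fin.sum_univ_succ, hα0, one_pow]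
      simp only [hαs]
      rw [pow_sum (by omega) β hβ k hk1 hk2]
      push_cast
      ring
    have e2 : Br k = ‖∑ i, α i ^ k‖ ^ 2 - 1 := by
      rw [hBr]
      simp only [if_neg (show k ≠ 0 by omega)]
    rw [e2, e1, Complex.norm_real, Real.norm_eq_abs, sq_abs]
    ring
  have hx1' : |x| ≤ 1 := by linarith
  have hBsmall : ∀ i, 1 ≤ i → i < d - 1 → |Br i| ≤ 3 * |x| ^ i := by
    intro i hi1 hi2
    rw [hps i hi1 hi2]
    have e1 : |x ^ i| = |x| ^ i := abs_pow x i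
    have e2 : |x| ^ i ≤ 1 := pow_le_one₀ (abs_nonneg _) hx1'
    have e3 : 0 ≤ |x| ^ i := by positivity
    calc |2 * x ^ i + (x ^ i) ^ 2| ≤ |2 * x ^ i| + |(x ^ i) ^ 2| := abs_add_le _ _
      _ = 2 * |x| ^ i + (|x| ^ i) ^ 2 := by
          rw [abs_mul, abs_pow (x ^ i) 2, e1, abs_of_pos (by norm_num : (0 : ℝ) < 2)]
      _ ≤ 3 * |x| ^ i := by nlinarith
  have hBM : ∀ i, |Br i| ≤ ((d : ℝ) + 1) ^ 2 := by
    intro i
    by_cases hi : i = 0
    · rw [hi, hBr0, abs_zero]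
      positivity
    · have e2 : Br i = ‖∑ j, α j ^ i‖ ^ 2 - 1 := by
        rw [hBr]
        simp only [if_neg hi]
      have e3 : ‖∑ j, α j ^ i‖ ≤ (d : ℝ) + 1 := by
        refine (norm_sum_le _ _).trans ?_
        have : ∀ j ∈ (univ : Finset (Fin (d + 1))), ‖α j ^ i‖ = 1 := by
          intro j _
          rw [norm_pow, hα1, one_pow]
        rw [sum_congr rfl this]
        simp
      have e4 : ‖∑ j, α j ^ i‖ ^ 2 ≤ ((d : ℝ) + 1) ^ 2 :=
        pow_le_pow_left₀ (norm_nonneg _) e3 2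
      have e5 : 0 ≤ ‖∑ j, α j ^ i‖ ^ 2 := by positivity
      have e6 : (1 : ℝ) ≤ ((d : ℝ) + 1) ^ 2 := by
        have : (0 : ℝ) ≤ d := Nat.cast_nonneg _
        nlinarith
      rw [e2, abs_le]
      constructor <;> linarith
  refine ⟨e, he0, ?_, ?_, ?_, α, hα1, hαp, hconj, ?_⟩
  · have e1 := hrec 1
    rw [Nat.sum_antidiagonal_eq_sum_range_succ_mk, sum_range_succ, sum_range_one] at e1
    simp only [Nat.sub_self, hBr0, he0, hps 1 le_rfl (by omega)] at e1
    push_cast at e1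
    linarith
  · intro k hk2 hk
    have e1 := rec_mid (m := d - 2) he0 hBr0 hrec
      (fun i hi1 hi2 => hBsmall i hi1 (by omega)) k (by omega)
    have e2 : (3 * |x|) ^ k ≤ (3 * |x|) ^ 2 := by
      apply pow_le_pow_of_le_one (by positivity) (by linarith) hk2
    have e3 : (3 * |x|) ^ 2 = 9 * x ^ 2 := by
      rw [mul_pow, sq_abs]
      norm_num
    nlinarith [sq_nonneg z]
  · intro k
    have e1 := rec_all (D := d - 1) he0 hBr0 hrec hBsmall hBM hx1 rr_pos rr_lt hsm k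
    rw [rr_inv] at e1
    have e2 : 0 < (3 : ℝ) ^ ((k : ℝ) / 64) := Real.rpow_pos_of_pos (by norm_num) _
    linarith
  · intro w hw
    have e1 : Ev w E ((1 - w) * ∏ i, ∏ j, (1 - α i * conj (α j) * w)⁻¹) := by
      apply Ev_mul (Ev_lin w)
      apply Ev_prod
      intro i _
      apply Ev_prod
      intro j _
      apply Ev_Ge
      rw [norm_mul, norm_mul, hα1, Complex.norm_conj, hα1, one_mul, one_mul]
      linarith
    have e2 := e1.2
    simp only [hee] at e2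
    exact e2

theorem small_ex : ∃ N₁ : ℕ, ∀ d : ℕ, N₁ ≤ d →
    ((d : ℝ) + 1) ^ 2 * (rr ^ (d - 1) / (1 - rr)) ≤ 1 / 2 := by
  have h1 : Filter.Tendsto (fun n : ℕ => (n : ℝ) ^ 2 * rr ^ n) Filter.atTop (nhds 0) :=
    tendsto_pow_const_mul_const_pow_of_abs_lt_one 2 (by
      rw [abs_of_pos rr_pos]
      exact rr_lt)
  have hr := rr_pos
  have hr1 : 0 < 1 - rr := by linarith [rr_lt]
  have h2 : ∀ᶠ n : ℕ in Filter.atTop, (n : ℝ) ^ 2 * rr ^ n < rr ^ 2 * (1 - rr) / 2 :=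
    (tendsto_order.1 h1).2 _ (by positivity)
  obtain ⟨N₁, hN₁⟩ := Filter.eventually_atTop.1 h2
  refine ⟨N₁ + 1, fun d hd => ?_⟩
  have h3 := (hN₁ (d + 1) (by omega)).le
  have h4 : rr ^ (d + 1) = rr ^ 2 * rr ^ (d - 1) := by
    rw [← pow_add]
    congr 1
    omega
  rw [h4] at h3
  push_cast at h3
  have h5 : rr ^ 2 * (((d : ℝ) + 1) ^ 2 * rr ^ (d - 1)) ≤ rr ^ 2 * ((1 - rr) / 2) := by
    nlinarith
  have h6 : ((d : ℝ) + 1) ^ 2 * rr ^ (d - 1) ≤ (1 - rr) / 2 :=
    le_of_mul_le_mul_left h5 (by positivity)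
  rw [← mul_div_assoc, div_le_iff₀ hr1]
  linarith

theorem t_LR1 (h2 : Pool.Agent.Q284.PS.S_LOC2) : S_LR1 := by
  obtain ⟨N₁, hN₁⟩ := small_ex
  refine ⟨N₁ + 10, fun N hN => ?_⟩
  obtain ⟨d, rfl⟩ : ∃ d, N = d + 1 := ⟨N - 1, by omega⟩
  have key : ∀ z : ℝ, ∃ e : ℕ → ℝ, e 0 = 1 ∧ (|z| ≤ 1 / 100 → e 1 = z ∧
      (∀ k, 2 ≤ k → k < d - 1 → |e k| ≤ 10 * z ^ 2) ∧
      (∀ k : ℕ, |e k| ≤ 2 * (3 : ℝ) ^ ((k : ℝ) / 64)) ∧
      ∃ α : Fin (d + 1) → ℂ, (∀ j, ‖α j‖ = 1) ∧ ∏ j, α j = 1 ∧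
        (∀ w : ℂ, ∏ j, (1 - conj (α j) * w) = ∏ j, (1 - α j * w)) ∧
        ∀ w : ℂ, ‖w‖ ≤ 1 / 2 →
          HasSum (fun k : ℕ => (e k : ℂ) * w ^ k)
            ((1 - w) * ∏ i, ∏ j, (1 - α i * conj (α j) * w)⁻¹)) := by
    intro z
    by_cases hz : |z| ≤ 1 / 100
    · obtain ⟨e, h0, h1, h3, h4, h5⟩ := per_z h2 (by omega) (hN₁ d (by omega)) z hz
      exact ⟨e, h0, fun _ => ⟨h1, h3, h4, h5⟩⟩
    · exact ⟨fun _ => 1, rfl, fun h => absurd h hz⟩
  choose h hh0 hh using key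
  refine ⟨h, ⟨hh0, fun z hz => (hh z hz).1, ?_, fun z k hz => (hh z hz).2.2.1 k⟩,
    fun z hz => (hh z hz).2.2.2⟩
  intro z k hz hk1 hk2
  exact (hh z hz).2.1 k hk1 (by omega)

end Pool.Agent.Q95.PX
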